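import Pool.Agent.D0H54.NS.Sharp
import Pool.Agent.D0H21.NS.Siegel

/-!
# MP_58e087_nt: near relations between powers of `e` and any other numbers lie in few subspaces

The question is whether `a + b e + c π = 0` has no solution in integers, not all zero. Let `u_0, …, u_n` be distinct
integers (for the question `0, 1`) and let `ξ_1, …, ξ_m` be ANY complex numbers (for the question `m = 1`, `ξ_1 = π`; other
examples are `π, π², …, π^m`, or `π`, `log 2`, `ζ(3)`, Euler's constant). A near relation of order `w` is an integer vector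
`v = (a_0, …, a_n, c_1, …, c_m)`, not zero, of height `H` (the maximum of the absolute values) with
`|a_0 e^(u_0) + … + a_n e^(u_n) + c_1 ξ_1 + … + c_m ξ_m| ≤ H^(-w)`.

1. (Few subspaces.) Let `m ≤ D` and let `w` be larger than `w_D = (n (D + 1) + m) / (D + 1 - m)`, and
`1 < ρ < ((w + 1) (D + 1 - m) / (n + 1) - 1) / D` (the right side is larger than `1` if and only if `w > w_D`). For all
`Y ≥ 3` all near relations of order `w` and height at most `Y` lie in the union of at most `log log Y / log ρ + C` subspaces of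
dimension at most `D` of `ℚ^(n + 1 + m)`. The constant `C` does not depend on `ξ_1, …, ξ_m` and `Y`.

For `D = n + m` the subspaces are hyperplanes and `w_D = n + m` is Dirichlet's exponent: every system of real numbers `ξ_i`
has infinitely many near relations of order `w` for each `w < n + m`. For `D = m` the dimension of the subspaces is the smallest
possible one: if all `ξ_i` are rational linear combinations of the numbers `e^(u_j)` then the true relations form a space of
dimension `m`; here `w_D = n + m (n + 1)`.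

2. (One number.) For `m = 1`, `w > 2 n + 1` and `1 < ρ < (w - n) / (n + 1)` the number of the primitive integer vectors
`(a_0, …, a_n, c)` with `c > 0`, height `H ≤ Y` and `|a_0 e^(u_0) + … + a_n e^(u_n) + c ξ| ≤ H^(-w)` is at most
`log log Y / log ρ + C`, with a constant `C` that does not depend on `ξ`.

3. (The order of magnitude.) The bound in 2 is sharp up to the factor `1 / log ρ`: for every real `w` and every integer
`W ≥ 2`, `W > w + 1` there are a real number `ξ` and `C` such that for all `Y ≥ 3` the number of the primitive integer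
vectors in 2 is at least `log log Y / log W - C`. So a better bound for `ξ = π` needs a property of `π`.

For `n = 1`, `u = (0, 1)` and `ξ = π` part 2 is the theorem of helper49 which this file replaces (`w > 3`, `ρ < (w - 1) / 2`:
the number of the near relations between `1`, `e` and `π`). New are the powers of `e`, several arbitrary numbers, the
uniformity in these numbers, and the subspaces of all dimensions between `m` and `n + m`, which interpolate between the
bound for hyperplanes (which is true for all systems of numbers and uses nothing about `e`) and the bound for the smallest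
possible dimension.

The proof of 1: from `D + 1` linearly independent near relations whose heights lie between `H` and `H^ρ` one eliminates the
numbers `ξ_i` by a weighted form of Siegel's lemma (`S_SIEGEL`, the weights are the heights); this gives a nonzero integral
linear form in `e^(u_0), …, e^(u_n)` with a small value, which is excluded by the optimal measure of linear independence of
these numbers (`W472.AC`, starting files; `D0H21/PE/Lin`). So the near relations with heights between `H` and `H^ρ` span a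
space of dimension at most `D`. For 3 take `ξ = - e^(u_0) ∑ 2^(-W^k)`. Coauthors: helper21 (Siegel's lemma), helper92 (covering), helper62 (primitive vectors),
helper49 (the theorem for `1, e, π`).
-/

set_option autoImplicit false

namespace Pool.Agent.Results.MP_58e087_nt.FewSubspaces

open Finset

/-- The height of an integer vector `v = (a, c)`: the maximum of the absolute values of its components. -/
def height {n m : ℕ} (v : (Fin (n + 1) → ℤ) × (Fin m → ℤ)) : ℕ :=
  max (univ.sup fun j => (v.1 j).natAbs) (univ.sup fun i => (v.2 i).natAbs)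

/-- The value `a_0 e^(u_0) + … + a_n e^(u_n) + c_1 ξ_1 + … + c_m ξ_m` for the integer vector `v = (a, c)`. -/
noncomputable def value {n m : ℕ} (u : Fin (n + 1) → ℤ) (ξ : Fin m → ℂ) (v : (Fin (n + 1) → ℤ) × (Fin m → ℤ)) : ℂ :=
  ∑ j, (v.1 j : ℂ) * ((Real.exp (u j) : ℝ) : ℂ) + ∑ i, (v.2 i : ℂ) * ξ i

/-- The integer vector as a rational vector. -/
def rational {n m : ℕ} (v : (Fin (n + 1) → ℤ) × (Fin m → ℤ)) : (Fin (n + 1) → ℚ) × (Fin m → ℚ) :=
  (fun j => (v.1 j : ℚ), fun i => (v.2 i : ℚ))

/-- **Near relations lie in few subspaces.** For distinct integers `u_0, …, u_n`, any complex numbers `ξ_1, …, ξ_m` and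
`m ≤ D`, the near relations of order `w` and height at most `Y` lie in at most `log log Y / log ρ + C` subspaces of dimension
at most `D`, if `1 < ρ < ((w + 1) (D + 1 - m) / (n + 1) - 1) / D`; for one number `ξ` the number of the primitive ones is at
most `log log Y / log ρ + C` if `1 < ρ < (w - n) / (n + 1)`. The constants do not depend on the `ξ_i`. For some real `ξ` it is
at least `log log Y / log W - C`, `W > w + 1`. -/
theorem result :
    (∀ n m D : ℕ, 1 ≤ m → m ≤ D → ∀ u : Fin (n + 1) → ℤ, Function.Injective u → ∀ w ρ : ℝ, 1 < ρ →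
      ρ < ((w + 1) * ((D : ℝ) + 1 - m) / (n + 1) - 1) / D →
      ∃ C : ℝ, ∀ (ξ : Fin m → ℂ) (Y : ℝ), 3 ≤ Y →
        ∃ T : Finset (Submodule ℚ ((Fin (n + 1) → ℚ) × (Fin m → ℚ))),
          (T.card : ℝ) ≤ Real.log (Real.log Y) / Real.log ρ + C ∧ (∀ W ∈ T, Module.finrank ℚ W ≤ D) ∧
          ∀ v : (Fin (n + 1) → ℤ) × (Fin m → ℤ), v ≠ 0 → (height v : ℝ) ≤ Y →
            ‖value u ξ v‖ ≤ (height v : ℝ) ^ (-w) → ∃ W ∈ T, rational v ∈ W) ∧
    (∀ (n : ℕ) (u : Fin (n + 1) → ℤ), Function.Injective u → ∀ w ρ : ℝ, 1 < ρ → ρ < (w - n) / (n + 1) →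
      ∃ C : ℝ, ∀ (ξ : ℂ) (Y : ℝ), 3 ≤ Y →
        {v : (Fin (n + 1) → ℤ) × (Fin 1 → ℤ) | 0 < v.2 0 ∧ (∀ d : ℤ, (∀ j, d ∣ v.1 j) → d ∣ v.2 0 → IsUnit d) ∧
          (height v : ℝ) ≤ Y ∧ ‖value u (fun _ => ξ) v‖ ≤ (height v : ℝ) ^ (-w)}.Finite ∧
        ({v : (Fin (n + 1) → ℤ) × (Fin 1 → ℤ) | 0 < v.2 0 ∧ (∀ d : ℤ, (∀ j, d ∣ v.1 j) → d ∣ v.2 0 → IsUnit d) ∧
          (height v : ℝ) ≤ Y ∧ ‖value u (fun _ => ξ) v‖ ≤ (height v : ℝ) ^ (-w)}.ncard : ℝ) ≤
          Real.log (Real.log Y) / Real.log ρ + C) ∧
    (∀ (n : ℕ) (u : Fin (n + 1) → ℤ) (w : ℝ) (W : ℕ), 2 ≤ W → w + 1 < W →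
      ∃ ξ C : ℝ, ∀ Y : ℝ, 3 ≤ Y → Real.log (Real.log Y) / Real.log W - C ≤
        ({v : (Fin (n + 1) → ℤ) × (Fin 1 → ℤ) | 0 < v.2 0 ∧ (∀ d : ℤ, (∀ j, d ∣ v.1 j) → d ∣ v.2 0 → IsUnit d) ∧
          (height v : ℝ) ≤ Y ∧ ‖value u (fun _ => (ξ : ℂ)) v‖ ≤ (height v : ℝ) ^ (-w)}.ncard : ℝ)) :=
  ⟨fun n m D hm hmD u hu w ρ hρ hw =>
      Pool.Agent.D0H54.NS.few Pool.Agent.D0H21.NS.t_SIEGEL n m D hm hmD u hu w ρ hρ hw,
    fun n u hu w ρ hρ hw => Pool.Agent.D0H54.NS.count Pool.Agent.D0H21.NS.t_SIEGEL n u hu w ρ hρ hw,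
    fun n u w W hW hw => Pool.Agent.D0H54.NS.sharp n u w W hW hw⟩

end Pool.Agent.Results.MP_58e087_nt.FewSubspaces
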