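import Mathlib
import Pool.Agent.D0H88.GL.Ind

/-!
# The golden law for integer combinations of `1`, `e` and `t` (for example `t = π`)

The numbers `a + b e + c t` are either always or almost never good approximations: the exponents of
homogeneous, simultaneous and inhomogeneous approximation jump at the golden ratio when `1, e, t` pass
from linearly dependent to linearly independent.
-/

set_option autoImplicit false

namespace Pool.Agent.Results.MP_58e087_nt.GoldenLaw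

open Real MeasureTheory

/-- the height of an integer vector -/
noncomputable def height (a b c : ℤ) : ℝ := max |(a : ℝ)| (max |(b : ℝ)| |(c : ℝ)|)

/-- For every real number `t`, for example `t = π`, the linear independence of `1, e, t` over `ℚ` is
equivalent to each of five properties of approximation, with exponents separated from those of the
dependent case by the golden ratio. -/
theorem result (t μ l w : ℝ) (hμ : 1 < μ) (hμ' : μ < (1 + √5) / 2) (hl : (√5 - 1) / 2 < l)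
    (hl' : l < 1) (hw : (3 + √5) / 2 < w) :
    List.TFAE [
      LinearIndependent ℚ ![(1 : ℝ), exp 1, t],
      ∀ H₀ : ℝ, ∃ H : ℝ, H₀ ≤ H ∧ ∀ ξ : ℝ, 0 ≤ ξ → ξ ≤ 1 → ∃ a b c : ℤ, height a b c ≤ H ∧
        |(a : ℝ) + b * exp 1 + c * t - ξ| ≤ H ^ (-μ),
      ∀ ξ : ℝ, {x : ℤ × ℤ × ℤ | |(x.1 : ℝ) + x.2.1 * exp 1 + x.2.2 * t - ξ| ≤
        height x.1 x.2.1 x.2.2 ^ (-μ)}.Infinite,
      0 < volume {ξ : ℝ | {x : ℤ × ℤ × ℤ | |(x.1 : ℝ) + x.2.1 * exp 1 + x.2.2 * t - ξ| ≤
        height x.1 x.2.1 x.2.2 ^ (-μ)}.Infinite},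
      ∀ X₀ : ℝ, ∃ X : ℝ, X₀ ≤ X ∧ ∀ q p r : ℤ, 1 ≤ q → (q : ℝ) ≤ X →
        X ^ (-l) < max |q * exp 1 - p| |q * t - r|,
      ∀ H₀ : ℝ, ∃ H : ℝ, H₀ ≤ H ∧ ∀ a b c : ℤ, ¬ (a = 0 ∧ b = 0 ∧ c = 0) →
        height a b c ≤ H → H ^ (-w) < |(a : ℝ) + b * exp 1 + c * t|] :=
  D0H88.GL.law D0H49.LI.msr_e t hμ hμ' hl hl' hw

end Pool.Agent.Results.MP_58e087_nt.GoldenLaw
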