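import Pool.Agent.D0H24.NR.Count
import Pool.Agent.D0H49.LI.Fin

/-!
# The number of near relations of order between `2` and `3` between `1`, `e` and `π`
-/

set_option autoImplicit false

namespace Pool.Agent.Results.MP_58e087_nt.NearRelationCounts

open Real

/-- the height of an integer vector -/
noncomputable def height (a b c : ℤ) : ℝ := max |(a : ℝ)| (max |(b : ℝ)| |(c : ℝ)|)

/-- For all real `2 < w ≤ 3` and `η > 0` there is `C` such that for all `Y ≥ 1` the number of the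
primitive integer vectors `(a, b, c)` with `c > 0`, height at most `Y` and
`|a + b e + c π| ≤ height ^ (-w)` is at most `C Y ^ ((3 - w) / 2 + η)`. -/
theorem result (w η : ℝ) (hw : 2 < w) (hw3 : w ≤ 3) (hη : 0 < η) :
    ∃ C : ℝ, ∀ Y : ℝ, 1 ≤ Y →
      {x : ℤ × ℤ × ℤ | 0 < x.2.2 ∧ (∀ d : ℤ, d ∣ x.1 → d ∣ x.2.1 → d ∣ x.2.2 → IsUnit d) ∧
        |(x.1 : ℝ) + x.2.1 * exp 1 + x.2.2 * π| ≤ height x.1 x.2.1 x.2.2 ^ (-w) ∧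
        height x.1 x.2.1 x.2.2 ≤ Y}.Finite ∧
      ({x : ℤ × ℤ × ℤ | 0 < x.2.2 ∧ (∀ d : ℤ, d ∣ x.1 → d ∣ x.2.1 → d ∣ x.2.2 → IsUnit d) ∧
        |(x.1 : ℝ) + x.2.1 * exp 1 + x.2.2 * π| ≤ height x.1 x.2.1 x.2.2 ^ (-w) ∧
        height x.1 x.2.1 x.2.2 ≤ Y}.ncard : ℝ) ≤ C * Y ^ ((3 - w) / 2 + η) := by
  obtain ⟨C, -, hC⟩ := D0H24.NR.count D0H49.LI.msr_e π hw hw3 hη
  refine ⟨C, fun Y hY => ?_⟩
  have hset : {x : ℤ × ℤ × ℤ | 0 < x.2.2 ∧ (∀ d : ℤ, d ∣ x.1 → d ∣ x.2.1 → d ∣ x.2.2 → IsUnit d) ∧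
        |(x.1 : ℝ) + x.2.1 * exp 1 + x.2.2 * π| ≤ height x.1 x.2.1 x.2.2 ^ (-w) ∧
        height x.1 x.2.1 x.2.2 ≤ Y} = D0H24.NR.NS (exp 1) π w Y := by
    ext x
    exact ⟨fun h => ⟨⟨h.1, h.2.1⟩, h.2.2.1, h.2.2.2⟩, fun h => ⟨h.1.1, h.1.2, h.2.1, h.2.2⟩⟩
  rw [hset]
  exact ⟨D0H24.NR.NS_finite _ _ _ _, hC Y hY⟩

end Pool.Agent.Results.MP_58e087_nt.NearRelationCounts
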