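import Pool.Agent.D0H21.PE.Pow
import Pool.Agent.D0H21.PE.Lin

/-!
# Near relations between `1`, `π` and `e ^ r`: at every scale there are none, for all but few `r`

The question is whether `a + b e + c π = 0` has no solution in integers, not all zero. We replace `e` by
`e ^ r` (and `π` by `π ^ s`, or by an arbitrary number `ξ`), the equation by an inequality for all
integers of absolute value at most `H`, and linear forms by polynomials of any given degrees, and show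
that at every scale `H` there are few exceptional exponents `r`. The constants do not depend on `ξ`
and `H`.

1. (Linear forms, any real `ξ`.) Let `A`, `B` be disjoint finite sets of nonzero integers, `η > 0`. There
is `c > 0` such that for all real `ξ` and all `H ≥ 1` the inequalities
`|a + ∑_{r ∈ A} b_r e ^ r + k ξ| < c H ^ (-κ)`, `|a' + ∑_{r ∈ B} b'_r e ^ r + k' ξ| < c H ^ (-κ)`,
`κ = 2 (|A| + |B|) + 1 + η`, are not both solvable in integers of absolute value at most `H` with some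
`b_r ≠ 0` and some `b'_r ≠ 0`. For `A = {r}`, `B = {s}` we have `κ = 5 + η`: among the members `r` of any
finite set of nonzero integers there is at every scale at most one for which
`|a + b e ^ r + k π| < c H ^ (-5 - η)`, `b ≠ 0`, is solvable.

2. (Polynomials, any complex `ξ`.) Let `D`, `d` be given, let `R` be a finite set of nonzero rational
numbers, and call `r` exceptional for `ξ` and `H` if `|P(ξ, e ^ r)| < c H ^ (-κ)` for a nonzero integral
polynomial `P(x, z)` of degree at most `D` in `x` and at most `d` in `z` with coefficients of absolute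
value at most `H`. If `ξ` itself is not a near algebraic number, then the numbers `h |r|`, `r ∈ R`
exceptional, are of the form `a / b`, `1 ≤ a ≤ D`, `1 ≤ b ≤ d`, with one `h > 0`. So at most as many
`|r|` are exceptional as there are fractions of this form (one, if `D = d = 1`).

3. (The numbers `π ^ s` and `e ^ r`.) For `ξ = π` this holds for all `H ≥ 1`, and more generally for the
pairs of numbers `π ^ s`, `e ^ r`, with `|r| / |s|` in place of `|r|`.

4. (The number of exceptions is the right one.) For `ξ = e` all the fractions `r = a / b` of 2 are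
exceptional for all `H ≥ 1` and arbitrary precision.
-/

set_option autoImplicit false

namespace Pool.Agent.Results.MP_58e087_nt.PowersAtEveryScale

open Finset

/-- There are integers `a`, `k`, `b_r` (`r ∈ A`) of absolute value at most `H`, with `b_r ≠ 0` for some
`r ∈ A`, such that `|a + ∑_{r ∈ A} b_r e ^ r + k ξ| < ε`. -/
def LinearNear (ξ : ℝ) (A : Finset ℤ) (H ε : ℝ) : Prop :=
  ∃ (a k : ℤ) (b : ℤ → ℤ), (∃ r ∈ A, b r ≠ 0) ∧ |(a : ℝ)| ≤ H ∧ |(k : ℝ)| ≤ H ∧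
    (∀ r ∈ A, |(b r : ℝ)| ≤ H) ∧ |a + ∑ r ∈ A, b r * Real.exp r + k * ξ| < ε

/-- There is a nonzero polynomial `P = ∑ c i j x ^ i z ^ j` with integral coefficients of absolute value
at most `H`, of degree at most `D` in `x` and at most `d` in `z`, such that `|P(x, z)| < ε`. -/
def Near (x z : ℂ) (D d : ℕ) (H ε : ℝ) : Prop :=
  ∃ c : ℕ → ℕ → ℤ, (∃ i ≤ D, ∃ j ≤ d, c i j ≠ 0) ∧ (∀ i j, |(c i j : ℝ)| ≤ H) ∧
    ‖∑ i ∈ range (D + 1), ∑ j ∈ range (d + 1), (c i j : ℂ) * x ^ i * z ^ j‖ < ε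

/-- The rational numbers `a / b` with `1 ≤ a ≤ D` and `1 ≤ b ≤ d`. -/
def fractions (D d : ℕ) : Finset ℚ := (Icc 1 D ×ˢ Icc 1 d).image fun p => (p.1 : ℚ) / p.2

lemma mem_fractions {D d : ℕ} {q : ℚ} (h : ∃ a b : ℕ, 1 ≤ a ∧ a ≤ D ∧ 1 ≤ b ∧ b ≤ d ∧ q = a / b) :
    q ∈ fractions D d := by
  obtain ⟨a, b, h1, h2, h3, h4, h5⟩ := h
  exact Finset.mem_image.2 ⟨(a, b), Finset.mem_product.2 ⟨Finset.mem_Icc.2 ⟨h1, h2⟩,
    Finset.mem_Icc.2 ⟨h3, h4⟩⟩, h5.symm⟩

lemma near_fraction (D d : ℕ) (r : ℚ) (hr : r ∈ fractions D d) (H ε : ℝ) (hH : 1 ≤ H) (hε : 0 < ε) :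
    Near ((Real.exp 1 : ℝ) : ℂ) ((Real.exp r : ℝ) : ℂ) D d H ε := by
  obtain ⟨⟨a, b⟩, hab, rfl⟩ := Finset.mem_image.1 hr
  rw [Finset.mem_product, Finset.mem_Icc, Finset.mem_Icc] at hab
  obtain ⟨⟨ha, haD⟩, hb, hbd⟩ := hab
  simp only at ha haD hb hbd ⊢
  refine ⟨fun i j => (if i = 0 ∧ j = b then 1 else 0) - (if i = a ∧ j = 0 then 1 else 0),
    ⟨0, Nat.zero_le _, b, hbd, ?_⟩, fun i j => ?_, ?_⟩
  · simp only [true_and, if_true]
    rw [if_neg (by omega)]
    norm_num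
  · push_cast
    split_ifs <;> simp <;> linarith
  · have h1 : ∑ i ∈ range (D + 1), ∑ j ∈ range (d + 1),
        (((if i = 0 ∧ j = b then 1 else 0) - (if i = a ∧ j = 0 then 1 else 0) : ℤ) : ℂ) *
          ((Real.exp 1 : ℝ) : ℂ) ^ i * ((Real.exp ((a : ℚ) / (b : ℚ) : ℚ) : ℝ) : ℂ) ^ j =
        ((Real.exp ((a : ℚ) / (b : ℚ) : ℚ) : ℝ) : ℂ) ^ b - ((Real.exp 1 : ℝ) : ℂ) ^ a := by
      have e1 : ∀ i j : ℕ, (((if i = 0 ∧ j = b then 1 else 0) - (if i = a ∧ j = 0 then 1 else 0) : ℤ) : ℂ) *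
          ((Real.exp 1 : ℝ) : ℂ) ^ i * ((Real.exp ((a : ℚ) / (b : ℚ) : ℚ) : ℝ) : ℂ) ^ j =
          (if i = 0 then (if j = b then ((Real.exp ((a : ℚ) / (b : ℚ) : ℚ) : ℝ) : ℂ) ^ j else 0) else 0) -
          (if i = a then (if j = 0 then ((Real.exp 1 : ℝ) : ℂ) ^ i else 0) else 0) := by
        intro i j
        by_cases h1 : i = 0
        · have h2 : i ≠ a := by omega
          by_cases h3 : j = b
          · simp [h1, h3, show (0 : ℕ) ≠ a by omega]
          · simp [h1, h3, show (0 : ℕ) ≠ a by omega]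
        · by_cases h2 : i = a
          · by_cases h3 : j = 0
            · simp [h2, h3, show a ≠ 0 by omega]
            · simp [h2, h3, show a ≠ 0 by omega]
          · simp [h1, h2]
      simp only [e1, Finset.sum_sub_distrib]
      have e2 : ∑ i ∈ range (D + 1), ∑ j ∈ range (d + 1),
          (if i = 0 then (if j = b then ((Real.exp ((a : ℚ) / (b : ℚ) : ℚ) : ℝ) : ℂ) ^ j else 0) else 0) =
          ((Real.exp ((a : ℚ) / (b : ℚ) : ℚ) : ℝ) : ℂ) ^ b := by
        rw [Finset.sum_eq_single 0]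
        · simp only [if_true]
          rw [Finset.sum_ite_eq' (range (d + 1)) b, if_pos (Finset.mem_range.2 (by omega))]
        · intro i _ hi
          simp [hi]
        · intro h
          exact absurd (Finset.mem_range.2 (by omega)) h
      have e3 : ∑ i ∈ range (D + 1), ∑ j ∈ range (d + 1),
          (if i = a then (if j = 0 then ((Real.exp 1 : ℝ) : ℂ) ^ i else 0) else 0) =
          ((Real.exp 1 : ℝ) : ℂ) ^ a := by
        rw [Finset.sum_eq_single a]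
        · simp only [if_true]
          rw [Finset.sum_ite_eq' (range (d + 1)) 0, if_pos (Finset.mem_range.2 (by omega))]
        · intro i _ hi
          simp [hi]
        · intro h
          exact absurd (Finset.mem_range.2 (by omega)) h
      rw [e2, e3]
    rw [h1]
    have hb0 : (b : ℝ) ≠ 0 := by
      have : b ≠ 0 := by omega
      exact_mod_cast this
    have h2 : ((Real.exp ((a : ℚ) / (b : ℚ) : ℚ) : ℝ) : ℂ) ^ b = ((Real.exp 1 : ℝ) : ℂ) ^ a := by
      rw [← Complex.ofReal_pow, ← Complex.ofReal_pow, ← Real.exp_nat_mul, ← Real.exp_nat_mul]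
      congr 2
      push_cast
      field_simp
    rw [h2, sub_self, norm_zero]
    exact hε

theorem result :
    -- 1. linear forms
    (∀ A B : Finset ℤ, 0 ∉ A → 0 ∉ B → Disjoint A B → ∀ η : ℝ, 0 < η → ∃ c : ℝ, 0 < c ∧
      ∀ ξ H : ℝ, 1 ≤ H →
      ¬ (LinearNear ξ A H (c * H ^ (-(2 * ((A.card : ℝ) + B.card) + 1 + η))) ∧
        LinearNear ξ B H (c * H ^ (-(2 * ((A.card : ℝ) + B.card) + 1 + η))))) ∧
    -- 2. polynomials, arbitrary `ξ`
    (∀ (D d : ℕ) (R : Finset ℚ), (∀ r ∈ R, r ≠ 0) → ∀ T κ₁ : ℝ, 0 < κ₁ →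
      ∃ κ c C : ℝ, 0 < κ ∧ 0 < c ∧ 0 < C ∧ ∀ ξ : ℂ, ‖ξ‖ ≤ T → ∀ H : ℝ, 1 ≤ H →
      (∃ q : Polynomial ℤ, q ≠ 0 ∧ q.natDegree ≤ D ∧ (∀ k, |(q.coeff k : ℝ)| ≤ C * H) ∧
        ‖Polynomial.aeval ξ q‖ < H ^ (-κ₁)) ∨
      (∃ h : ℚ, 0 < h ∧ ∀ r ∈ R, Near ξ ((Real.exp r : ℝ) : ℂ) D d H (c * H ^ (-κ)) →
        |r| * h ∈ fractions D d)) ∧
    -- 3. the numbers `π ^ s`, `e ^ r`
    (∀ (D d : ℕ) (S : Finset (ℚ × ℚ)), (∀ p ∈ S, p.1 ≠ 0 ∧ p.2 ≠ 0) →
      ∃ κ c : ℝ, 0 < κ ∧ 0 < c ∧ ∀ H : ℝ, 1 ≤ H → ∃ h : ℚ, 0 < h ∧ ∀ p ∈ S,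
        Near ((Real.pi ^ (p.2 : ℝ) : ℝ) : ℂ) ((Real.exp p.1 : ℝ) : ℂ) D d H (c * H ^ (-κ)) →
        |p.1| / |p.2| * h ∈ fractions D d) ∧
    -- 4. sharpness
    (∀ D d : ℕ, ∀ r ∈ fractions D d, ∀ H ε : ℝ, 1 ≤ H → 0 < ε →
      Near ((Real.exp 1 : ℝ) : ℂ) ((Real.exp r : ℝ) : ℂ) D d H ε) := by
  refine ⟨?_, ?_, ?_, near_fraction⟩
  · intro A B hA hB hAB η hη
    obtain ⟨c, hc, h⟩ := Pool.Agent.D0H21.PE.lin A B hA hB hAB η hη
    refine ⟨c, hc, ?_⟩
    rintro ξ H hH ⟨⟨a, k, b, h1, h2, h3, h4, h5⟩, a', k', b', h1', h2', h3', h4', h5'⟩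
    exact h ξ H hH a k a' k' b b' h1 h1' h2 h3 h2' h3' h4 h4' h5 h5'
  · intro D d R hR T κ₁ hκ₁
    obtain ⟨κ, c, C, hκ, hc, hC, h⟩ := Pool.Agent.D0H21.PE.near_arb (Real.exp 1) (Real.exp_pos 1)
      Pool.Agent.TH456.TM.measT_e D d R hR T κ₁ hκ₁
    refine ⟨κ, c, C, hκ, hc, hC, fun ξ hξ H hH => ?_⟩
    rcases h ξ hξ H hH with h1 | ⟨q, hq, h1⟩
    · exact Or.inl h1
    · refine Or.inr ⟨q, hq, fun r hr hn => mem_fractions (h1 r hr ?_)⟩
      rw [Real.exp_one_rpow]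
      exact hn
  · intro D d S hS
    obtain ⟨κ, c, hκ, hc, h⟩ := Pool.Agent.D0H21.PE.near_two (Real.exp 1) Real.pi (Real.exp_pos 1)
      Real.pi_pos Pool.Agent.TH456.TM.measT_e Pool.Agent.TH456.TM.measT_pi D d S hS
    refine ⟨κ, c, hκ, hc, fun H hH => ?_⟩
    obtain ⟨q, hq, h1⟩ := h H hH
    refine ⟨q, hq, fun p hp hn => mem_fractions (h1 p hp ?_)⟩
    rw [Real.exp_one_rpow]
    exact hn

end Pool.Agent.Results.MP_58e087_nt.PowersAtEveryScale
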